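import Pool.Agent.R383.TM.NumF
import Pool.Agent.Y223.G.AllW
import Pool.Agent.Y223.G.AllP
import Pool.Agent.Y563.G.Wch
import Pool.Agent.Y901.G.Wreg
import Pool.Agent.K3h75.TO.VNz
import Pool.Agent.K3h66.TO.Fml
import Pool.Agent.K3h22.PK
import Pool.Agent.K3h26.Lat
import Pool.Agent.K3h8.Exb
import Pool.Agent.K3h77.EXA
import Pool.Agent.K3h77.EXC
import Pool.Agent.K3h21.TO.Exd
import Pool.Agent.K3h21.TO.Num

/-!
MP_4d1008_ag: regular proper models over the integers of algebraic tori over number fields, in every
dimension, with wild ramification of order `p`.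

Let `T` be an algebraic torus over the number field `E` which splits over the Galois extension `M`
of `E`, and suppose that the order of the inertia group (the ramification index over `E`) of every
prime of `M` is not divisible by the square of the residue characteristic. Then every integral
scheme of finite type over the integers which is birational to `T` has a regular proper model.

The proof: (1) a lattice with an action of a finite group has a stable smooth projective fan
(Brylinski, Künnemann, Colliot-Thélène, Harari, Skorobogatov), here with a complete proof: the flags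
of the cells of a stable hyperplane arrangement, star subdivisions at orbits, and the smooth
polytope of a support function. (2) The toric scheme over the integers of `M` is regular, with linear
Galois action; its homogeneous coordinates are the characters `x μ` in the polytope `P` (a large
multiple). (3) NEW: for a wild automorphism `σ` of order `p` with the action `τ` on the lattice and
with ramification number `l`, we add the coordinates `(σ ^ e - 1) ^ a (x μ - x ν)`, with the weight
`(a + 1) l`, for `a < p` and all `μ`, `ν` in `P` for which the norm of `μ - ν` is zero; the norm-zero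
differences generate the ideal of the fixed points, including those where `τ` acts on the
coordinates as a scalar matrix with infinitesimal fixed point scheme. The weighted blowup is
regular: near a fixed point, the parameters are the elements `x ((τ - 1) ^ a g) - 1`, `a < p - 1`,
for a basis `g` of the kernel of the norm over `ℤ[ζ]` locally at `p`, the elements
`(τ - 1) ^ a` of the permuted coordinates, `1 ≤ a < p`, and the uniformizer of the base. The leading
form of `σ - 1` has no zeros outside the vertex, because `(σ - 1) ^ p` is, modulo the action on the base, `p`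
times a unit times `σ - 1`. So the theorem on weighted wild quotients of the starting files
(MP_4d1008_ag.WeightedWildQuotients) applies.

Project of helper75; helpers 26 (lattices over `ℤ[ζ]`), 44 (orbits), 66 (parameters, charts,
assembly), 9 (Jacobian condition), 22 (polytopes, covers), 8 (fixed points, star subdivisions), 77
(hyperplane arrangements), 21 (smooth polytopes, number fields).
-/

set_option autoImplicit false

open AlgebraicGeometry CategoryTheory CategoryTheory.Limits MvPolynomial

open scoped NumberField

namespace Pool.Agent.Results.MP_4d1008_ag.AlgebraicTori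

/-- The inertia group of the ideal `𝔓` of the ring of integers of `M`: the automorphisms of `M` over
`E` which act trivially modulo `𝔓`. -/
def inertiaGroup (E : Type) {M : Type} [Field E] [Field M] [Algebra E M] (𝔓 : Ideal (𝓞 M)) :
    Set (M ≃ₐ[E] M) :=
  {g | ∀ o : 𝓞 M, ∃ e ∈ 𝔓, (e : M) = g o - o}

/-- The order of the inertia group of the maximal ideal `𝔓` (the ramification index of `𝔓` over `E`)
is divisible by `r ^ i`, where `r` is the residue characteristic. -/
def ResCharPowDvd (E : Type) {M : Type} [Field E] [Field M] [Algebra E M] (𝔓 : Ideal (𝓞 M))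
    (i : ℕ) : Prop :=
  ∃ r : ℕ, r.Prime ∧ (r : 𝓞 M) ∈ 𝔓 ∧ r ^ i ∣ Nat.card (inertiaGroup E 𝔓)

/-- `K` is the function field of the split torus over `M` with the lattice of characters `Λ`: it is
generated over `M` by the characters `x a`, `a ∈ Λ`, which are multiplicative and linearly
independent over `M`; and the Galois group of `M` over `E` acts on `K` (by `ρ`) through its action on
`M` and on the lattice of characters. The field of invariants is the function field of the torus over
`E` with the lattice of characters `Λ`. -/
structure IsTorusFunctionField {E M Λ K : Type} [Field E] [Field M] [Algebra E M]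
    [AddCommGroup Λ] [DistribMulAction (M ≃ₐ[E] M) Λ] [Field K] [Algebra M K] [Algebra E K]
    (ρ : (M ≃ₐ[E] M) →* (K ≃ₐ[E] K)) (x : Λ → K) : Prop where
  zero : x 0 = 1
  add : ∀ a b, x (a + b) = x a * x b
  linearIndependent : LinearIndependent M x
  generates : IntermediateField.adjoin M (Set.range x) = ⊤
  semilinear : ∀ g c, ρ g (algebraMap M K c) = algebraMap M K (g c)
  equivariant : ∀ g a, ρ g (x a) = x (g • a)

theorem result :
    ∀ (E M : Type) [Field E] [NumberField E] [Field M] [NumberField M] [Algebra E M]
      [IsGalois E M],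
      -- the wild inertia groups have order at most the residue characteristic
      (∀ 𝔓 : Ideal (𝓞 M), 𝔓.IsMaximal → ¬ ResCharPowDvd E 𝔓 2) →
      -- the lattice of characters of the torus, with the action of the Galois group
      ∀ (Λ : Type) [AddCommGroup Λ] [Module.Free ℤ Λ] [Module.Finite ℤ Λ]
      [DistribMulAction (M ≃ₐ[E] M) Λ]
      -- the function field `F` of the torus over `E`, and the function field `K` over `M`
      (F K : Type) [Field F] [Field K] [Algebra E F] [Algebra M K] [Algebra E K]
      [IsScalarTower E M K] [Algebra F K] [IsScalarTower E F K]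
      (ρ : (M ≃ₐ[E] M) →* (K ≃ₐ[E] K)) (x : Λ → K), IsTorusFunctionField ρ x →
      (∀ y, (∀ g, ρ g y = y) ↔ ∃ f : F, algebraMap F K f = y) →
      -- every integral scheme of finite type over the integers with the function field `F`
      ∀ (Y : Scheme.{0}) (_ : IsIntegral Y) (s : Y ⟶ Spec (CommRingCat.of ℤ)),
      LocallyOfFiniteType s → QuasiCompact s → Nonempty (Y.functionField ≃+* F) →
      ∃ (X' : Scheme.{0}) (_ : IsIntegral X') (g : X' ⟶ Spec (CommRingCat.of ℤ)),
        IsProper g ∧
        (∀ x : X',
          (((Module.finrank (IsLocalRing.ResidueField (X'.presheaf.stalk x))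
              (IsLocalRing.CotangentSpace (X'.presheaf.stalk x)) : ℕ∞)) : WithBot ℕ∞)
            = ringKrullDim (X'.presheaf.stalk x)) ∧
        Nonempty (X'.functionField ≃+* Y.functionField) := by
  intro E M _ _ _ _ _ _ hin Λ _ _ _ _ F K _ _ _ _ _ _ _ _ ρ x hx hfix Y' _ s _ _ ⟨i⟩
  have hcard : ∀ 𝔓 : Ideal (𝓞 M), Nat.card (Pool.Agent.Y223.G.inert E 𝔓) =
      Nat.card (inertiaGroup E 𝔓) := by
    intro 𝔓
    have h1 : ((Pool.Agent.Y223.G.inert E 𝔓 : Subgroup (M ≃ₐ[E] M)) : Set (M ≃ₐ[E] M)) =
        inertiaGroup E 𝔓 := by
      ext g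
      constructor
      · intro hg o
        exact ⟨_, hg o, rfl⟩
      · intro hg o
        obtain ⟨e, he, h⟩ := hg o
        have h2 : e = Pool.Agent.Y223.G.TT E M g o - o := by
          apply NumberField.RingOfIntegers.coe_injective
          exact h
        rw [← h2]
        exact he
    exact congrArg (fun S : Set (M ≃ₐ[E] M) => Nat.card S) h1
  have hin' : ∀ 𝔓 : Ideal (𝓞 M), 𝔓.IsMaximal → ∀ p : ℕ, p.Prime → (p : 𝓞 M) ∈ 𝔓 →
      ¬ p ^ 2 ∣ Nat.card (Pool.Agent.Y223.G.inert E 𝔓) :=
    fun 𝔓 h𝔓 p hp hp𝔓 hd => hin 𝔓 h𝔓 ⟨p, hp, hp𝔓, by rwa [← hcard]⟩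
  obtain ⟨P, hP, hPst⟩ := Pool.Agent.K3h75.TO.t_EXP Pool.Agent.K3h77.EXA.t_EXA
    Pool.Agent.K3h8.Exb.t_EXB Pool.Agent.K3h77.EXC.t_EXC Pool.Agent.K3h75.TO.t_EXD
    (M ≃ₐ[E] M) Λ
  obtain ⟨m, z, hz, hgen, hlin, hreg, e, w, hD⟩ := Pool.Agent.K3h66.TO.t_FML
    (Pool.Agent.K3h22.PK.t_PK Pool.Agent.K3h26.LAT.t_LAT)
    (Pool.Agent.K3h75.TO.t_VREG (Pool.Agent.Y563.GW.t_WCH Pool.Agent.Y901.G.t_WREG)
      Pool.Agent.K3h66.TO.t_IND Pool.Agent.K3h9.TO.t_JAC Pool.Agent.K3h44.Orb.t_ORB)
    (Pool.Agent.K3h75.TO.t_VNZ Pool.Agent.K3h44.Orb.t_ORB Pool.Agent.K3h8.FixZ.t_FIXZ)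
    Pool.Agent.K3h66.TO.t_CHT Pool.Agent.K3h66.TO.t_CH0 Pool.Agent.K3h75.TO.t_NUM
    E M hin' Λ P hP hPst K ρ hx.semilinear x hx.zero hx.add hx.linearIndependent hx.generates
    hx.equivariant
  have hW : Pool.Agent.R383.TM.WWD E M F K ρ z :=
    Pool.Agent.R383.TM.wwd_of Pool.Agent.Y223.G.all_TAMC ρ hx.semilinear hfix hin' z hz hgen
      hlin hreg e w hD
  exact Pool.Agent.R383.TM.tm_model_F Pool.Agent.Y223.G.all_LINW Pool.Agent.Y223.G.all_CHW
    Pool.Agent.Y223.G.all_RWB Pool.Agent.Y614.H.RegL.t_REGL hW i

end Pool.Agent.Results.MP_4d1008_ag.AlgebraicTori
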