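import Pool.Agent.K3h75.NW.AllAW

/-!
MP_4d1008_ag: a positive proportion of all polynomials over the ring of integers of a number field
define affine schemes birational to regular schemes proper over `ℤ`.

Let `K` be a number field, and order polynomials with coefficients in its ring of integers by the
size of the coordinates of the coefficients with respect to an integral basis. The following holds
for a positive proportion of the polynomials `f`

1. of degree at most `d`, `d ≥ 2`, in `m ≥ 2` variables;
2. of the form `w ^ m + a_1(x) w ^ (m-1) + ... + a_m(x)`, `m ≥ 2`, where `a_i` is a polynomial of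
   degree at most `i e` in `x_1, ..., x_n`, `n ≥ 1`, `e ≥ 1`, `m e ≥ 3` (coverings of degree `m` of
   the affine space of dimension `n`),

and for every finite extension `E` of `K`: `f` is irreducible over `E`, and every integral scheme of
finite type over `ℤ` whose function field is the fraction field of `E[x] / (f)` is birational to a
regular integral scheme proper over `ℤ`.
-/

set_option autoImplicit false

open AlgebraicGeometry CategoryTheory MvPolynomial

open scoped NumberField

namespace Pool.Agent.Results.MP_4d1008_ag.PositiveProportion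

/-- The Krull dimension of the local ring `A` equals the dimension of its cotangent space. -/
def HasRegularDimension (A : Type) [CommRing A] [IsLocalRing A] : Prop :=
  (((Module.finrank (IsLocalRing.ResidueField A) (IsLocalRing.CotangentSpace A) : ℕ∞)) :
    WithBot ℕ∞) = ringKrullDim A

/-- The integral scheme `Y` has the same function field as some integral scheme, proper over `ℤ`, all
of whose local rings are regular. -/
def IsBirationalToRegularProper (Y : Scheme.{0}) [IsIntegral Y] : Prop :=
  ∃ (X' : Scheme.{0}) (_ : IsIntegral X') (g : X' ⟶ Spec (CommRingCat.of ℤ)),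
    IsProper g ∧ (∀ x : X', HasRegularDimension (X'.presheaf.stalk x)) ∧
    Nonempty (X'.functionField ≃+* Y.functionField)

/-- Every integral scheme `Y` of finite type over `ℤ` whose function field is isomorphic to the
fraction field of `E[x] / (G)`, where `x` stands for the variables with indices in `τ`, is birational
to a regular integral scheme proper over `ℤ`. -/
def HasRegularProperModels {E τ : Type} [Field E] (G : MvPolynomial τ E) : Prop :=
  ∀ (Y : Scheme.{0}) [IsIntegral Y] (s : Y ⟶ Spec (CommRingCat.of ℤ)),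
    LocallyOfFiniteType s → QuasiCompact s →
    Nonempty (Y.functionField ≃+* FractionRing (MvPolynomial τ E ⧸ Ideal.span {G})) →
    IsBirationalToRegularProper Y

/-- For every number field `E` and every embedding of `K` into `E`, the polynomial `f` is irreducible
over `E`, and the fraction field of `E[x] / (f)` has regular proper models. -/
def IsResolvableOverAllExtensions {K τ : Type} [Field K] (f : MvPolynomial τ (𝓞 K)) : Prop :=
  ∀ (E : Type) [Field E] [NumberField E] (σ : K →+* E),
    Irreducible (map (σ.comp (algebraMap (𝓞 K) K)) f) ∧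
      HasRegularProperModels (map (σ.comp (algebraMap (𝓞 K) K)) f)

/-- The set of the polynomials `f` of degree at most `d` in `m` variables with coefficients in the
ring of integers of `K`, such that all coordinates of the coefficients of `f` with respect to the
integral basis `ω` have absolute value at most `H`. -/
def boundedPolynomials {K ι : Type} [Field K] (ω : Module.Basis ι ℤ (𝓞 K)) (m d H : ℕ) :
    Set (MvPolynomial (Fin m) (𝓞 K)) :=
  {f | f.totalDegree ≤ d ∧ ∀ e i, |ω.repr (f.coeff e) i| ≤ H}

/-- The polynomial `f` in `w = X none` and `x_j = X (some j)` is of the form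
`w ^ m + a_1(x) w ^ (m-1) + ... + a_m(x)`, where `a_i` is a polynomial of degree at most `i e`. -/
def IsCovering {R : Type} [CommRing R] {n : ℕ} (e m : ℕ) (f : MvPolynomial (Option (Fin n)) R) :
    Prop :=
  (∀ s, f.coeff s ≠ 0 → s none * e + ∑ j, s (some j) ≤ m * e) ∧
    f.coeff (Finsupp.single none m) = 1

/-- The set of the polynomials `w ^ m + a_1(x) w ^ (m-1) + ... + a_m(x)` in `w` and `n` variables
`x_j` with coefficients in the ring of integers of `K`, where `a_i` has degree at most `i e`, such
that all coordinates of the coefficients of the `a_i` with respect to the integral basis `ω` have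
absolute value at most `H`. -/
def boundedCoverings {K ι : Type} [Field K] (ω : Module.Basis ι ℤ (𝓞 K)) (n e m H : ℕ) :
    Set (MvPolynomial (Option (Fin n)) (𝓞 K)) :=
  {f | IsCovering e m f ∧ ∀ s, s ≠ Finsupp.single none m → ∀ i, |ω.repr (f.coeff s) i| ≤ H}

/-- 1. A positive proportion of all polynomials of degree at most `d`, `d ≥ 2`, in `m ≥ 2` variables
over the ring of integers of `K` is resolvable over all finite extensions of `K`. 2. The same for the
coverings of degree `m ≥ 2` of the affine space of dimension `n ≥ 1`. -/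
theorem result (K ι : Type) [Field K] [NumberField K] [Fintype ι]
    (ω : Module.Basis ι ℤ (𝓞 K)) :
    (∀ m d : ℕ, 2 ≤ m → 2 ≤ d →
      (∀ H : ℕ, (boundedPolynomials ω m d H).Finite) ∧
      ∃ c : ℝ, 0 < c ∧ ∃ H₀ : ℕ, ∀ H : ℕ, H₀ ≤ H →
        c * ((boundedPolynomials ω m d H).ncard : ℝ) ≤
          ({f ∈ boundedPolynomials ω m d H | IsResolvableOverAllExtensions f}.ncard : ℝ)) ∧
    ∀ n e m : ℕ, 1 ≤ n → 1 ≤ e → 2 ≤ m → 3 ≤ m * e →
      (∀ H : ℕ, (boundedCoverings ω n e m H).Finite) ∧
      ∃ c : ℝ, 0 < c ∧ ∃ H₀ : ℕ, ∀ H : ℕ, H₀ ≤ H →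
        c * ((boundedCoverings ω n e m H).ncard : ℝ) ≤
          ({f ∈ boundedCoverings ω n e m H | IsResolvableOverAllExtensions f}.ncard : ℝ) := by
  refine ⟨fun m d hm hd => ?_, fun n e m hn he hm hme => ?_⟩
  · obtain ⟨n, rfl⟩ : ∃ n, m = n + 1 := ⟨m - 1, by omega⟩
    refine Pool.Agent.K3h75.ND.countA Pool.Agent.K3h75.ND.pb_ok Pool.Agent.K3h75.ND.cnto_ok ω n d
      hd IsResolvableOverAllExtensions ?_
    intro a ha E _ _ σ
    obtain ⟨h1, h2⟩ := Pool.Agent.K3h75.ND.g0o_ok n d (𝓞 K) a ha E
      (NumberField.RingOfIntegers.mapRingHom σ)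
    have h3 : map (σ.comp (algebraMap (𝓞 K) K)) (Pool.Agent.K3h75.ND.form a) =
        map (algebraMap (𝓞 E) E) (Pool.Agent.K3h75.ND.form fun m =>
          NumberField.RingOfIntegers.mapRingHom σ (a m)) := by
      rw [Pool.Agent.K3h75.ND.map_form', Pool.Agent.K3h75.ND.map_form']
      rfl
    obtain ⟨h4, X', hX', g, hg, hreg, ⟨i⟩⟩ := Pool.Agent.K3h75.ND.model_aff
      Pool.Agent.K3h75.ND.aff_ok Pool.Agent.K3h75.ND.hm_ok Pool.Agent.K3h75.ND.gm_ok (by omega) _ d
      hd (Pool.Agent.K3h75.ND.form_homog _) h1 h2
    rw [← h3] at h4 i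
    rw [Pool.Agent.K3h75.ND.map_dh]
    refine ⟨h4, ?_⟩
    rintro Y _ s _ _ ⟨j⟩
    exact ⟨X', hX', g, hg, hreg, ⟨i.trans j.symm⟩⟩
  · have hset : ∀ H : ℕ, boundedCoverings ω n e m H = Pool.Agent.K3h75.NW.PWBox ω n e m H := by
      intro H
      ext f
      exact and_assoc
    simp only [hset]
    refine Pool.Agent.K3h75.NW.countAW Pool.Agent.K3h75.NW.pbw_ok Pool.Agent.K3h75.NW.cntw_ok ω n e
      m hn he hm hme IsResolvableOverAllExtensions ?_
    intro a ha E _ _ σ
    obtain ⟨h1, h2⟩ := Pool.Agent.K3h75.NW.g0w_ok n e m he (by omega) (𝓞 K) a ha E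
      (NumberField.RingOfIntegers.mapRingHom σ)
    have h3 : map (σ.comp (algebraMap (𝓞 K) K)) (Pool.Agent.K3h75.NW.wform a) =
        map (algebraMap (𝓞 E) E) (Pool.Agent.K3h75.NW.wform fun s =>
          NumberField.RingOfIntegers.mapRingHom σ (a s)) := by
      rw [Pool.Agent.K3h75.NW.map_wform, Pool.Agent.K3h75.NW.map_wform]
      rfl
    obtain ⟨h4, X', hX', g, hg, hreg, ⟨i⟩⟩ := Pool.Agent.K3h75.NW.model_affW
      Pool.Agent.K3h75.NW.affw_ok Pool.Agent.K3h75.NW.hmw_ok Pool.Agent.K3h75.NW.gmw_ok hn e m he
      (by omega) _ (Pool.Agent.K3h75.NW.wform_homog _) (Pool.Agent.K3h75.NW.coeff_wform_top _) h1 h2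
    rw [← h3] at h4 i
    rw [Pool.Agent.K3h75.NW.map_dhW]
    refine ⟨h4, ?_⟩
    rintro Y _ s _ _ ⟨j⟩
    exact ⟨X', hX', g, hg, hreg, ⟨i.trans j.symm⟩⟩

end Pool.Agent.Results.MP_4d1008_ag.PositiveProportion
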