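import Pool.Agent.K3h75.FF.T1
import Pool.Agent.K3h66.FF.Xg
import Pool.Agent.K3h8.FormsK
import Pool.Agent.K3h55.CV.Curve
import Pool.Agent.K3h66.FF.FmlU
import Pool.Agent.K3h77.FF.Tamf
import Pool.Agent.K3h8.NumF
import Pool.Agent.Y223.G.AllW
import Pool.Agent.Y563.G.Wch
import Pool.Agent.Y901.G.Wreg
import Pool.Agent.K3h75.TO.VNz
import Pool.Agent.K3h26.Lat
import Pool.Agent.K3h8.Exb
import Pool.Agent.K3h77.EXA
import Pool.Agent.K3h77.EXC
import Pool.Agent.K3h21.TO.Exd
import Pool.Agent.Y246.G.HasM
import Pool.Agent.H918R2.Quad.Final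

/-!
MP_4d1008_ag: regular proper models over the integers of algebraic tori over global function
fields, in every dimension, with wild ramification of order `p`.

Let `T` be an algebraic torus over the global function field `E` of characteristic `p` which splits
over the Galois extension `M` of `E`, and suppose that the order of the inertia group of every
place of `M` is not divisible by `p ^ 2`. Then every integral scheme of finite type over the integers
which is birational to `T` has a regular proper model.

This is the analogue, for function fields, of MP_4d1008_ag.AlgebraicTori (number fields). New in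
comparison with it: (1) the ring of integers is replaced by two Dedekind domains with perfect residue
fields which cover the projective curve, adapted to the ramification; the toroidal and weighted
blowups of the two pieces are glued (gluing of the charts over different affine pieces, with sections
of a line bundle which vanish at the ramified points); (2) the theory of the starting library
(project G: weighted blowups at wild fixed points and destackification) is extended from number
rings to Dedekind domains with perfect residue fields, also of positive characteristic, where the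
order `p` of the wild automorphism is zero.

Project of helper75; helpers 66 (coordinates, gluing), 8 (numerical data, invariant forms, inertia),
77 (wild inertia groups), 55 (the two pieces of the curve), and 26, 44, 9, 22, 21 (bricks of
MP_4d1008_ag.AlgebraicTori used here).
-/

set_option autoImplicit false

open AlgebraicGeometry CategoryTheory

namespace Pool.Agent.Results.MP_4d1008_ag.ToriOverCurves

/-- The inertia group of the valuation ring `V` of `M`: the automorphisms of `M` over `E` which map
`V` to itself and act trivially on the residue field. -/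
def inertiaGroup (E : Type) {M : Type} [Field E] [Field M] [Algebra E M] (V : ValuationSubring M) :
    Set (M ≃ₐ[E] M) :=
  {g | ∀ y ∈ V, ∃ e : V, e ∈ IsLocalRing.maximalIdeal V ∧ (e : M) = g y - y}

/-- `K` is the function field of the split torus over `M` with the lattice of characters `Λ`: it is
generated over `M` by the characters `x a`, `a ∈ Λ`, which are multiplicative and linearly
independent over `M`; and the Galois group of `M` over `E` acts on `K` (by `ρ`) through its action on
`M` and on the lattice of characters. The field of invariants is the function field of the torus over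
`E` with the lattice of characters `Λ`. -/
structure IsTorusFunctionField {E M Λ K : Type} [Field E] [Field M] [Algebra E M]
    [AddCommGroup Λ] [DistribMulAction (M ≃ₐ[E] M) Λ] [Field K] [Algebra M K] [Algebra E K]
    (ρ : (M ≃ₐ[E] M) →* (K ≃ₐ[E] K)) (x : Λ → K) : Prop where
  zero : x 0 = 1
  add : ∀ a b, x (a + b) = x a * x b
  linearIndependent : LinearIndependent M x
  generates : IntermediateField.adjoin M (Set.range x) = ⊤
  semilinear : ∀ g c, ρ g (algebraMap M K c) = algebraMap M K (g c)
  equivariant : ∀ g a, ρ g (x a) = x (g • a)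

theorem result :
    ∀ (κ E M : Type) [Field κ] [Finite κ] [Field E] [Algebra (RatFunc κ) E]
      [FiniteDimensional (RatFunc κ) E] [Algebra.IsSeparable (RatFunc κ) E]
      [Field M] [Algebra E M] [FiniteDimensional E M] [IsGalois E M],
      -- the wild inertia groups have order at most the characteristic
      (∀ V : ValuationSubring M, ¬ ringChar κ ^ 2 ∣ Nat.card (inertiaGroup E V)) →
      -- the lattice of characters of the torus, with the action of the Galois group
      ∀ (Λ : Type) [AddCommGroup Λ] [Module.Free ℤ Λ] [Module.Finite ℤ Λ]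
      [DistribMulAction (M ≃ₐ[E] M) Λ]
      -- the function field `F` of the torus over `E`, and the function field `K` over `M`
      (F K : Type) [Field F] [Field K] [Algebra E F] [Algebra M K] [Algebra E K]
      [IsScalarTower E M K] [Algebra F K] [IsScalarTower E F K]
      (ρ : (M ≃ₐ[E] M) →* (K ≃ₐ[E] K)) (x : Λ → K), IsTorusFunctionField ρ x →
      (∀ y, (∀ g, ρ g y = y) ↔ ∃ f : F, algebraMap F K f = y) →
      -- every integral scheme of finite type over the integers with the function field `F`
      ∀ (Y : Scheme.{0}) (_ : IsIntegral Y) (s : Y ⟶ Spec (CommRingCat.of ℤ)),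
      LocallyOfFiniteType s → QuasiCompact s → Nonempty (Y.functionField ≃+* F) →
      ∃ (X' : Scheme.{0}) (_ : IsIntegral X') (g : X' ⟶ Spec (CommRingCat.of ℤ)),
        IsProper g ∧
        (∀ x : X',
          (((Module.finrank (IsLocalRing.ResidueField (X'.presheaf.stalk x))
              (IsLocalRing.CotangentSpace (X'.presheaf.stalk x)) : ℕ∞)) : WithBot ℕ∞)
            = ringKrullDim (X'.presheaf.stalk x)) ∧
        Nonempty (X'.functionField ≃+* Y.functionField) := by
  intro κ E M _ _ _ _ _ _ _ _ _ _ hin Λ _ _ _ _ F K _ _ _ _ _ _ _ _ ρ x hx hfix Y' _ s _ _ ⟨i⟩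
  classical
  let _ : Algebra (RatFunc κ) M := ((algebraMap E M).comp (algebraMap (RatFunc κ) E)).toAlgebra
  have _ : IsScalarTower (RatFunc κ) E M := IsScalarTower.of_algebraMap_eq fun _ => rfl
  have _ : FiniteDimensional (RatFunc κ) M := Module.Finite.trans E M
  have _ : Algebra.IsSeparable (RatFunc κ) M := Algebra.IsSeparable.trans (RatFunc κ) E M
  let _ : Algebra κ M := ((algebraMap (RatFunc κ) M).comp (algebraMap κ (RatFunc κ))).toAlgebra
  have _ : IsScalarTower κ (RatFunc κ) M := IsScalarTower.of_algebraMap_eq fun _ => rfl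
  let _ : Algebra κ F := ((algebraMap E F).comp ((algebraMap (RatFunc κ) E).comp
    (algebraMap κ (RatFunc κ)))).toAlgebra
  let _ : Algebra κ K := ((algebraMap F K).comp (algebraMap κ F)).toAlgebra
  have _ : IsScalarTower κ F K := IsScalarTower.of_algebraMap_eq fun _ => rfl
  have _ : IsScalarTower κ M K := IsScalarTower.of_algebraMap_eq fun c => by
    change algebraMap F K (algebraMap E F (algebraMap (RatFunc κ) E (algebraMap κ (RatFunc κ) c))) =
      algebraMap M K (algebraMap E M (algebraMap (RatFunc κ) E (algebraMap κ (RatFunc κ) c)))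
    rw [← IsScalarTower.algebraMap_apply E F K, ← IsScalarTower.algebraMap_apply E M K]
  have hp : (ringChar κ).Prime := CharP.char_is_prime κ (ringChar κ)
  have _ : Fact (ringChar κ).Prime := ⟨hp⟩
  let ρ' : (M ≃ₐ[E] M) →* (K ≃ₐ[F] K) :=
    { toFun := fun g => { (ρ g : K ≃+* K) with
        commutes' := fun f => (hfix _).2 ⟨f, rfl⟩ g }
      map_one' := by
        ext y
        change ρ 1 y = y
        rw [map_one]
        rfl
      map_mul' := fun g h => by
        ext y
        change ρ (g * h) y = ρ g (ρ h y)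
        rw [map_mul]
        rfl }
  obtain ⟨P, hP, hPst⟩ := Pool.Agent.K3h75.TO.t_EXP Pool.Agent.K3h77.EXA.t_EXA
    Pool.Agent.K3h8.Exb.t_EXB Pool.Agent.K3h77.EXC.t_EXC Pool.Agent.K3h75.TO.t_EXD
    (M ≃ₐ[E] M) Λ
  have hLOCJ : Pool.Agent.Y223.G.S_LOCJ := Pool.Agent.Y878.G.t_LOCJ
  have hI0 := Pool.Agent.Y642.G.t_I0REG hLOCJ
  have hLRA := Pool.Agent.Y737.G.t_LRA hLOCJ Pool.Agent.Y484.G.t_WQR
  have hLOWREG := Pool.Agent.Y44.G.t_LOWREG hI0 hLRA Pool.Agent.Y86.G.t_LOWFT
  have hD0 := Pool.Agent.Y705.G.t_D0 hI0
  obtain ⟨I, _, zz, J, hmod⟩ := Pool.Agent.K3h75.FF.t1 Pool.Agent.Y949.H.t_EXT2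
    Pool.Agent.Y153.H.t_RES2 Pool.Agent.Y484.H.t_ATLAS2
    (Pool.Agent.Y839.H.t_ASTEP2 Pool.Agent.Y232.G.t_GENS Pool.Agent.Y232.G.t_VAL
      Pool.Agent.Y86.G.t_LOWFT hLOWREG)
    (Pool.Agent.Y394.H.t_DOWN hD0) Pool.Agent.Y223.G.all_MODEL
    (Pool.Agent.K3h75.FF.t_RAMF2 Pool.Agent.K3h75.FF.t_RAM1F)
    (Pool.Agent.Y769.H.t_GLW Pool.Agent.Y153.H.t_R2M Pool.Agent.Y223.G.all_RWB)
    (Pool.Agent.K3h75.FF.t_GFF Pool.Agent.Y153.H.t_RES2 Pool.Agent.Y223.G.all_RWB)
    Pool.Agent.Y223.G.all_CHW Pool.Agent.Y223.G.all_RWB Pool.Agent.Y614.H.RegL.t_REGL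
    (Pool.Agent.K3h66.FF.t_XG Pool.Agent.Y153.H.t_R2M Pool.Agent.Y223.G.all_RWB)
    Pool.Agent.K3h77.FF.t_TAMF Pool.Agent.K3h8.NumF.t_NUMF
    (Pool.Agent.K3h75.TV.t_PK2 Pool.Agent.K3h26.LAT.t_LAT)
    (Pool.Agent.K3h75.TO.t_VREG (Pool.Agent.Y563.GW.t_WCH Pool.Agent.Y901.G.t_WREG)
      Pool.Agent.K3h66.TO.t_IND Pool.Agent.K3h9.TO.t_JAC Pool.Agent.K3h44.Orb.t_ORB)
    (Pool.Agent.K3h75.TO.t_VNZ Pool.Agent.K3h44.Orb.t_ORB Pool.Agent.K3h8.FixZ.t_FIXZ)
    Pool.Agent.K3h66.TO.t_CHT Pool.Agent.K3h66.TO.t_CH0
    Pool.Agent.K3h66.FF.t_FMLU (Pool.Agent.K3h8.FormsK.t_FORMSK Pool.Agent.Y417.G.t_EXF)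
    Pool.Agent.K3h8.FormsK.t_INV
    Pool.Agent.K3h55.CV.t_CURVE κ (ringChar κ) M (M ≃ₐ[E] M)
    (fun g c => g.commutes _) (fun V _ => hin V) Λ P hP hPst F K ρ' hfix
    (fun g c => hx.semilinear g c) x hx.zero hx.add hx.linearIndependent hx.generates
    (fun g a => hx.equivariant g a)
  have htop : (algebraMap F F).fieldRange = ⊤ := by
    ext y
    exact ⟨fun _ => Subfield.mem_top _, fun _ => ⟨y, rfl⟩⟩
  obtain ⟨M', h1, h2, h3, h4, -⟩ := Pool.Agent.Y246.G.t_HASM κ F F
    (algebraMap κ F).injective False ⊥ I zz J (by rw [htop]; exact hmod)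
  obtain ⟨X', hX', g, hg, hreg', ⟨i'⟩⟩ := Pool.Agent.H918R2.Quad.model_of_hasModule
    (algebraMap κ F).injective (show Pool.Agent.H918R2.Quad.HasModule κ F from ⟨M', h1, h2, h3, h4⟩)
  exact ⟨X', hX', g, hg, hreg', ⟨i'.trans i.symm⟩⟩

end Pool.Agent.Results.MP_4d1008_ag.ToriOverCurves
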