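import Pool.Agent.K3h19.Witt.Pairs
import Pool.Agent.W418.Z.Reg

/-!
MP_4d1008_ag: regular proper models over `ℤ`, in all dimensions, of towers of clean cyclic covers of degree `p ^ 2`
(Witt vectors of length two), and of more general towers, over a smooth projective variety `X` with
a divisor with simple normal crossings over a finite field of characteristic `p`.

The function field of the cover is generated by pairs `z t, w t`, `t = 1, ..., r`, such that the
vector `(z t, w t)` is a solution of the equation `F (Z) - Z = (f t + s t, g t + s' t)` in Witt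
vectors of length two, or, more generally, `z t ^ p - z t = f t + s t` and
`w t ^ p - w t = g t + s' t + Φ t (z t)`, where `Φ t` is any polynomial of degree `m t` prime to `p`,
and where the `s t` and `s' t` are functions in the previous fields with smaller poles; and by
`p`-th roots. The condition is that, at every point of `X`, the logarithmic differential forms of those
functions `f t` and `g t` which have a pole at the point are linearly independent; the form of
`g t` is only considered if its poles are not dominated by those of `Φ t (z t)`.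

In the extensions which could be treated before (CleanCovers, CleanTowers, MixedCleanTowers) every
step is given by a function of `X` with a clean pole of its own: the right-hand side of the step is
this function up to an error with smaller poles. Here the pole of the second step
`w t ^ p - w t = g t + Φ t (z t)` is in general the one of the function `Φ t (z t)`
of the first step, which is not a function on `X`, and has larger poles than all `f t`: its
logarithmic form vanishes on all tangent vectors of `X`, and is detected only by vertical tangent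
vectors of the model of the first step. This is the case in every cyclic extension of degree `p ^ 2`.

The proof: the model of the first step `K (z)` is constructed (by further blowups) so that on its charts
`z = x ^ μ * y`, where `y` is a unit at the poles of `f`; so `Φ (z)` has the pole `m μ`
with `p` not dividing `m`, and its logarithmic form does not vanish on the vertical tangent vector, which
kills all forms of functions of `X`. Then the poles of `Φ (z)` and of `g` are made comparable, and
the second step is in normal form. By induction on the tower, a logarithmic tangent vector of `X` can be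
lifted to the model if it is killed by the forms above.

helper19; built on the library of the starting files (helpers 176, 558, 214, 188, 32, 356, 906, 29,
33, 369, 405, 368, 230, 191, 410, 435, 376, 382, 348, 135, 991, 366, 74, 305, 417, 440, 409, 174,
290, 392, 352, 565, 335, 924, 337, 347, 479, 959, 727, 202, 22, 349, 715, 971, 90, 153 and others).
-/

set_option autoImplicit false

open AlgebraicGeometry CategoryTheory Pool.Agent.W558

namespace Pool.Agent.Results.MP_4d1008_ag.WittCovers

/-- The coordinate ring `k[H 0 / H j, ..., H N / H j]` of the chart `H j ≠ 0` of the projective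
variety over `k` with the homogeneous coordinates `H 0, ..., H N` in a field `K`. -/
def chart (k : Type) {K : Type} [Field k] [Field K] [Algebra k K] {N : ℕ}
    (H : Fin (N + 1) → K) (j : Fin (N + 1)) : Subalgebra k K :=
  Algebra.adjoin k (Set.range fun l => H l / H j)

/-- A tangent vector at the point `P : A → κ` of `Spec A`. -/
structure TangentVector {k A κ : Type} [Field k] [CommRing A] [Algebra k A] [Field κ]
    [Algebra k κ] (P : A →ₐ[k] κ) where
  /-- the derivation -/
  D : A →ₗ[k] κ
  leibniz : ∀ a b, D (a * b) = P a * D b + P b * D a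

/-- A logarithmic tangent vector at the point `P : A → κ` of `Spec A` with the divisor
`x 1 * ... * x d = 0`: a tangent vector together with the values `e i` of `dx i / x i`. -/
structure LogTangentVector {k A κ : Type} [Field k] [CommRing A] [Algebra k A] [Field κ]
    [Algebra k κ] (P : A →ₐ[k] κ) {d : ℕ} (x : Fin d → A) extends TangentVector P where
  /-- the values of `dx i / x i` -/
  e : Fin d → κ
  D_x : ∀ i, D (x i) = P (x i) * e i

/-- The value of the logarithmic differential form
`d (x ^ n * h) / x ^ n = dh + h * ∑ i, n i * dx i / x i` on the logarithmic tangent vector `v`. -/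
def LogTangentVector.form {k A κ : Type} [Field k] [CommRing A] [Algebra k A] [Field κ]
    [Algebra k κ] {P : A →ₐ[k] κ} {d : ℕ} {x : Fin d → A} (v : LogTangentVector P x)
    (n : Fin d → ℤ) (h : A) : κ :=
  v.D h + P h * ∑ i, (n i : κ) * v.e i

/-- A smooth projective variety over `k` with the function field `K` and a divisor with simple
normal crossings on it, with the components `1, ..., d`. -/
structure SmoothPair (k K : Type) [Field k] [Field K] [Algebra k K] (N d : ℕ) where
  /-- the homogeneous coordinates -/
  H : Fin (N + 1) → K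
  H_ne : ∀ j, H j ≠ 0
  smooth : ∀ j, Algebra.Smooth k (chart k H j)
  isFractionRing : ∀ j, IsFractionRing (chart k H j) K
  /-- the local equations of the components of the divisor on the charts -/
  x : ∀ j, Fin d → chart k H j
  x_ne : ∀ j i, x j i ≠ 0
  glue : ∀ j j' i, ∃ m : ℕ, (H j' / H j) ^ m * ((x j' i : K) / x j i) ∈ chart k H j
  snc : ∀ j (κ : Type) [Field κ] [Algebra k κ] (P : chart k H j →ₐ[k] κ) (i : Fin d),
    P (x j i) = 0 → ∃ D : TangentVector P, D.D (x j i) = 1 ∧
      ∀ l, l ≠ i → P (x j l) = 0 → D.D (x j l) = 0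

/-- The point `P` of the chart `j` is a pole of `x ^ n`: it lies on a component `i` of the divisor
with `n i < 0`. -/
def IsPole {k K : Type} [Field k] [Field K] [Algebra k K] {N d : ℕ} (X : SmoothPair k K N d)
    (n : Fin d → ℤ) {j : Fin (N + 1)} {κ : Type} [Field κ] [Algebra k κ]
    (P : chart k X.H j →ₐ[k] κ) : Prop :=
  ∃ i, n i < 0 ∧ P (X.x j i) = 0

/-- At the point `P` the poles of `x ^ n'` are dominated by the poles of a polynomial of degree `m`
in a root `z` of `z ^ p - z = x ^ n * h`: the point `P` is a pole of `x ^ n`, `h` does not vanish at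
`P`, and `m * n l / p ≤ n' l` for all components `l` of the divisor through `P`. -/
def IsDominated (p m : ℕ) {k K : Type} [Field k] [Field K] [Algebra k K] {N d : ℕ}
    (X : SmoothPair k K N d) (n n' : Fin d → ℤ) {j : Fin (N + 1)} (h : chart k X.H j)
    {κ : Type} [Field κ] [Algebra k κ] (P : chart k X.H j →ₐ[k] κ) : Prop :=
  IsPole X n P ∧ P h ≠ 0 ∧ ∀ l, P (X.x j l) = 0 → (m : ℤ) * n l ≤ p * n' l

/-- The pairs of functions `f t, g t`, with the degrees `m t`, and the functions `F u` (whose
`p`-th roots are considered) are jointly clean: on the chart `j` we have `f t = x ^ (n t) * h`,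
`g t = a ^ p - a + x ^ (n' t) * h'` with exponents `≤ 0`, and `F u = b ^ p + x ^ (e u) * c`,
where the exponents do not depend on the chart, `a, b ∈ K`, and `h, h', c` are regular
functions, such that, at every point `P`, the following logarithmic differential forms are linearly
independent (as linear functions of the logarithmic tangent vectors at `P`):

* the forms `d (x ^ (n t) * h) / x ^ (n t)`, for those `t` such that `P` is a pole of `x ^ (n t)`;
* the forms `d (x ^ (n' t) * h') / x ^ (n' t)`, for those `t` such that `P` is a pole of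
  `x ^ (n' t)` which is not dominated (see `IsDominated`);
* the forms `d (x ^ (e u) * c) / x ^ (e u)`, for all `u`.

Linear independence is expressed as follows: for every one of these forms there is a logarithmic
tangent vector on which it does not vanish and on which all the other forms vanish. -/
structure CleanData (p : ℕ) {k K : Type} [Field k] [Field K] [Algebra k K] {N d r q : ℕ}
    (X : SmoothPair k K N d) (f g : Fin r → K) (m : Fin r → ℕ) (F : Fin q → K) where
  /-- the exponents of the `f t` -/
  n : Fin r → Fin d → ℤ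
  /-- the functions `h` on the charts -/
  h : ∀ j, Fin r → chart k X.H j
  /-- the exponents of the `g t` -/
  n' : Fin r → Fin d → ℤ
  /-- the functions `a` on the charts -/
  a : Fin (N + 1) → Fin r → K
  /-- the functions `h'` on the charts -/
  h' : ∀ j, Fin r → chart k X.H j
  /-- the exponents of the `F u` -/
  e : Fin q → Fin d → ℤ
  /-- the functions `b` on the charts -/
  b : Fin (N + 1) → Fin q → K
  /-- the functions `c` on the charts -/
  c : ∀ j, Fin q → chart k X.H j
  n_nonpos : ∀ t i, n t i ≤ 0
  n'_nonpos : ∀ t i, n' t i ≤ 0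
  eq_f : ∀ j t, f t = (∏ i, (X.x j i : K) ^ n t i) * h j t
  eq_g : ∀ j t, g t = a j t ^ p - a j t + (∏ i, (X.x j i : K) ^ n' t i) * h' j t
  eq_F : ∀ j u, F u = b j u ^ p + (∏ i, (X.x j i : K) ^ e u i) * c j u
  clean_f : ∀ j (κ : Type) [Field κ] [Algebra k κ] (P : chart k X.H j →ₐ[k] κ) (t : Fin r),
    IsPole X (n t) P → ∃ v : LogTangentVector P (X.x j), v.form (n t) (h j t) ≠ 0 ∧
      (∀ t', t' ≠ t → IsPole X (n t') P → v.form (n t') (h j t') = 0) ∧
      ∀ t', IsPole X (n' t') P → ¬ IsDominated p (m t') X (n t') (n' t') (h j t') P →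
        v.form (n' t') (h' j t') = 0
  clean_g : ∀ j (κ : Type) [Field κ] [Algebra k κ] (P : chart k X.H j →ₐ[k] κ) (t : Fin r),
    IsPole X (n' t) P → ¬ IsDominated p (m t) X (n t) (n' t) (h j t) P →
    ∃ v : LogTangentVector P (X.x j), v.form (n' t) (h' j t) ≠ 0 ∧
      (∀ t', IsPole X (n t') P → v.form (n t') (h j t') = 0) ∧
      ∀ t', t' ≠ t → IsPole X (n' t') P →
        ¬ IsDominated p (m t') X (n t') (n' t') (h j t') P → v.form (n' t') (h' j t') = 0
  clean_F : ∀ j (κ : Type) [Field κ] [Algebra k κ] (P : chart k X.H j →ₐ[k] κ) (u : Fin q),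
    ∃ v : LogTangentVector P (X.x j), v.form (e u) (c j u) ≠ 0 ∧
      (∀ u', u' ≠ u → v.form (e u') (c j u') = 0) ∧
      (∀ t', IsPole X (n t') P → v.form (n t') (h j t') = 0) ∧
      ∀ t', IsPole X (n' t') P → ¬ IsDominated p (m t') X (n t') (n' t') (h j t') P →
        v.form (n' t') (h' j t') = 0

/-- On the chart `j`, the element `g` of the extension `K'` of `K` has smaller poles than `x ^ n`:
the quotient `y = g / x ^ n` is integral over the coordinate ring of the chart, and, for every
component `l` of the divisor with `n l < 0`, so is `y ^ e / x l` for some `e ≥ 1`. -/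
def HasSmallerPoles {k K : Type} [Field k] [Field K] [Algebra k K] {N d : ℕ}
    (X : SmoothPair k K N d) (n : Fin d → ℤ) (j : Fin (N + 1)) {K' : Type} [Field K']
    [Algebra K K'] (g : K') : Prop :=
  IsIntegral (chart k X.H j) (g * algebraMap K K' (∏ l, (X.x j l : K) ^ (-n l))) ∧
  ∀ l, n l < 0 → ∃ e : ℕ, 0 < e ∧ IsIntegral (chart k X.H j)
    ((g * algebraMap K K' (∏ l, (X.x j l : K) ^ (-n l))) ^ e *
      algebraMap K K' (X.x j l : K)⁻¹)

/-- The zeros and poles of the function `g` are contained in the divisor: on the charts it is the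
product of a unit and of powers of the local equations. -/
def IsBoundaryFunction {k K : Type} [Field k] [Field K] [Algebra k K] {N d : ℕ}
    (X : SmoothPair k K N d) (g : K) : Prop :=
  ∃ γ : Fin d → ℤ, ∀ j, ∃ u : (chart k X.H j)ˣ,
    g = ((u : chart k X.H j) : K) * ∏ i, (X.x j i : K) ^ γ i

/-- The second step `w` of a pair `z, w`, with the right-hand side `G`: either
`w ^ p - w = G + Φ (z)` with a polynomial `Φ` over `k` whose degree `m` is prime to `p`; or
`m = p ^ 2 - p + 1` and `z` and `w` are the first two components of a Witt vector `Z` such that the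
second component of `F (Z) - Z` is `G`, where `F` is the Frobenius of the ring of Witt vectors (the
first component of `F (Z) - Z` is `z ^ p - z`). -/
def IsSecondStep (k : Type) {K' : Type} [Field k] [Field K'] [Algebra k K'] (p m : ℕ)
    [Fact p.Prime] (z w G : K') : Prop :=
  (∃ Φ : Polynomial k, Φ.natDegree = m ∧ ¬ p ∣ m ∧ w ^ p - w = G + Polynomial.aeval z Φ) ∨
  (m = p * (p - 1) + 1 ∧ ∃ Z : WittVector p K', Z.coeff 0 = z ∧ Z.coeff 1 = w ∧
    (WittVector.frobenius Z - Z).coeff 1 = G)

/-- The pairs of elements `z t, w t` of the extension `K'` of `K` form a tower: `z t` is a root of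
`z t ^ p - z t = f t + s t`, where `s t` is an element of the field generated by the previous pairs
which, on every chart of `X`, has smaller poles than `x ^ (n t)`; and `w t` is obtained from `z t` by
a second step with the right-hand side `g t + s' t`, where `s' t` is an element of the field
generated by the previous pairs and `z t` which, on every chart of `X`, has smaller poles than
`x ^ (n' t)`, up to an element `b ^ p - b` of this field. -/
def IsTower {p : ℕ} [Fact p.Prime] {k K : Type} [Field k] [Field K] [Algebra k K]
    {N d r q : ℕ} {X : SmoothPair k K N d} {f g : Fin r → K} {m : Fin r → ℕ} {F : Fin q → K}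
    (C : CleanData p X f g m F) {K' : Type} [Field K'] [Algebra k K'] [Algebra K K']
    (z w : Fin r → K') : Prop :=
  ∃ s s' : Fin r → K',
    (∀ t, z t ^ p - z t = algebraMap K K' (f t) + s t) ∧
    (∀ t, s t ∈ IntermediateField.adjoin K (z '' {l | l < t} ∪ w '' {l | l < t})) ∧
    (∀ t j, HasSmallerPoles X (C.n t) j (s t)) ∧
    (∀ t, IsSecondStep k p (m t) (z t) (w t) (algebraMap K K' (g t) + s' t)) ∧
    (∀ t, s' t ∈ IntermediateField.adjoin K (z '' {l | l ≤ t} ∪ w '' {l | l < t})) ∧
    ∀ t j, ∃ b ∈ IntermediateField.adjoin K (z '' {l | l ≤ t} ∪ w '' {l | l < t}),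
      HasSmallerPoles X (C.n' t) j (s' t - (b ^ p - b))

/-- The elements `y 1, ..., y r'` of the extension `K'` of `K` are `p`-th roots of one of
the following two kinds, where `S` is a subset of `K'`.

* Every `y l ^ p` is a linear combination of the `F u` with coefficients in `k`, up to an element
  `b ^ p`, `b ∈ K (S)`.
* The zeros and poles of the `F u` are contained in the divisor, and every `y l ^ p` is a product of
  powers of the `F u`, up to a factor `b ^ p`, `b ∈ K (S)`, `b ≠ 0`. -/
def IsInseparablePart (p : ℕ) {k K : Type} [Field k] [Field K] [Algebra k K] {N d q : ℕ}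
    (X : SmoothPair k K N d) (F : Fin q → K) {K' : Type} [Field K'] [Algebra K K'] {r' : ℕ}
    (S : Set K') (y : Fin r' → K') : Prop :=
  (∀ l, ∃ c ∈ Submodule.span k (Set.range F), ∃ b ∈ IntermediateField.adjoin K S,
    y l ^ p = algebraMap K K' c + b ^ p) ∨
  (∀ u, IsBoundaryFunction X (F u)) ∧
    ∀ l, ∃ e : Fin q → ℤ, ∃ b ∈ IntermediateField.adjoin K S, b ≠ 0 ∧
      y l ^ p = algebraMap K K' (∏ u, F u ^ e u) * b ^ p

/-- Let `k` be a finite field of characteristic `p`, `X` a smooth projective variety over `k` with
the function field `K` and a divisor with simple normal crossings, and let `f t, g t`,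
`t = 1, ..., r`, with the degrees `m t`, and `F 1, ..., F q` be elements of `K` which are jointly clean.
Let `K'` be an extension of `K` generated by a tower of pairs `z t, w t` (for example by
solutions `(z t, w t)` of the equations `F (Z) - Z = (f t, g t)` in Witt vectors of length two, which
give cyclic extensions of degree `p ^ 2`; or `z t ^ p - z t = f t` and
`w t ^ p - w t = g t + Φ t (z t)` with polynomials `Φ t` of degree `m t` prime to `p`; in both
cases up to functions of the previous fields with smaller poles, so the extension is in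
general neither abelian nor Galois), and by `p`-th roots `y l`.

Then every integral scheme `Y` of finite type over `ℤ` whose function field is isomorphic to `K'`
has a regular model proper over `ℤ`. -/
theorem result (p : ℕ) [Fact p.Prime] (k K K' : Type) [Field k] [Finite k] [CharP k p]
    [Field K] [Algebra k K] [Field K'] [Algebra k K'] [Algebra K K'] [IsScalarTower k K K']
    (N d r q r' : ℕ) (X : SmoothPair k K N d) (f g : Fin r → K) (m : Fin r → ℕ) (F : Fin q → K)
    (C : CleanData p X f g m F) (z w : Fin r → K') (hzw : IsTower C z w)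
    (y : Fin r' → K') (hy : IsInseparablePart p X F (Set.range z ∪ Set.range w) y)
    (hgen : IntermediateField.adjoin K ((Set.range z ∪ Set.range w) ∪ Set.range y) = ⊤)
    (Y : Scheme.{0}) (_ : IsIntegral Y) (g' : Y ⟶ Spec (CommRingCat.of ℤ))
    (_ : LocallyOfFiniteType g') (_ : QuasiCompact g')
    (_ : Nonempty (Y.functionField ≃+* K')) :
    ∃ (X' : Scheme.{0}) (_ : IsIntegral X') (g' : X' ⟶ Spec (CommRingCat.of ℤ)),
      IsProper g' ∧
      (∀ x : X',
        (((Module.finrank (IsLocalRing.ResidueField (X'.presheaf.stalk x))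
            (IsLocalRing.CotangentSpace (X'.presheaf.stalk x)) : ℕ∞)) : WithBot ℕ∞)
          = ringKrullDim (X'.presheaf.stalk x)) ∧
      Nonempty (X'.functionField ≃+* Y.functionField) := by
  classical
  let M : LM (⊥ : Subalgebra k K) ⊤ (Fin (N + 1)) (Fin d) :=
    Pool.Agent.TH214.pairLM X.H (fun j i => (X.x j i : K)) X.H_ne X.smooth
      (fun j i => (X.x j i).2) (fun j i h0 => X.x_ne j i (Subtype.ext h0)) X.glue (by
        intro j κ _ _ P i hi h0
        obtain ⟨D, h1, h2⟩ := X.snc j κ P i h0
        exact ⟨⟨D.D, D.leibniz⟩, h1, fun l hl hne hl0 => h2 l hne hl0⟩)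
  have hW : Pool.Agent.K3h19.Witt.WD p M f g m C.n C.n' (fun j t => (C.h j t : K))
      (fun j t => (C.h' j t : K)) C.a := by
    refine ⟨C.n_nonpos, C.n'_nonpos, fun t j => (C.h j t).2, fun t j => (C.h' j t).2,
      fun t j => C.eq_f j t, fun t j => C.eq_g j t, ?_, ?_⟩
    · intro t j κ _ _ P ht
      obtain ⟨v, hv1, hv2, hv3⟩ := C.clean_f j κ P t ht
      refine ⟨⟨⟨v.D, v.leibniz⟩, v.e, fun i hi => v.D_x i⟩, fun l hl => ⟨fun hp => ?_,
        fun hp hd => ?_⟩, hv1⟩
      · exact hv2 l hl.ne hp
      · exact hv3 l hp hd
    · intro t j κ _ _ P ht htd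
      obtain ⟨v, hv1, hv2, hv3⟩ := C.clean_g j κ P t ht htd
      refine ⟨⟨⟨v.D, v.leibniz⟩, v.e, fun i hi => v.D_x i⟩, fun l hl => ⟨fun hp => ?_,
        fun hp hd => ?_⟩, fun hp => hv2 t hp, hv1⟩
      · exact hv2 l hp
      · exact hv3 l hl.ne hp hd
  have hfn : ∀ g : K, IsBoundaryFunction X g → ∃ γ : Fin d → ℤ, ∀ j : Fin (N + 1), ∃ w,
      w ≠ 0 ∧ w ∈ M.A j ∧ w⁻¹ ∈ M.A j ∧ g = w * ∏ i, M.x j i ^ γ i := by
    rintro g ⟨γ, hγ⟩
    refine ⟨γ, fun j => ?_⟩
    obtain ⟨u, hu⟩ := hγ j
    refine ⟨((u : chart k X.H j) : K), ?_, ((u : chart k X.H j)).2, ?_, hu⟩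
    · intro h0
      exact u.ne_zero (Subtype.ext h0)
    · have h1 : ((u : chart k X.H j) : K)⁻¹ = ((u⁻¹ : (chart k X.H j)ˣ) : K) := by
        refine inv_eq_of_mul_eq_one_right ?_
        have h2 := congrArg (fun z : chart k X.H j => (z : K)) u.mul_inv
        exact h2
      rw [h1]
      exact ((u⁻¹ : (chart k X.H j)ˣ) : chart k X.H j).2
  have hR : Frc M := by
    intro j z
    have := X.isFractionRing j
    obtain ⟨a', b', hb', rfl⟩ := IsFractionRing.div_surjective (A := chart k X.H j) z
    exact ⟨a', a'.2, b', b'.2, fun h0 => nonZeroDivisors.ne_zero hb' (Subtype.ext h0),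
      div_eq_mul_inv _ _⟩
  have hG : Fn M (fun b : PEmpty => (b.elim : K)) (fun b => b.elim) := fun b => b.elim
  have hln : ∀ j (κ : Type) [Field κ] [Algebra k κ] (ψ : M.A j →ₐ[k] κ) (u : Fin q),
      ∃ v : Pool.Agent.W558.LT ψ (M.x j), Pool.Agent.W558.om v (C.e u) (C.c j u).2 ≠ 0 ∧
        (∀ l, l ≠ u → Pool.Agent.W558.om v (C.e l) (C.c j l).2 = 0) ∧
        hW.W r j κ ψ v := by
    intro j κ _ _ P u
    obtain ⟨v, h1, h2, h3, h4⟩ := C.clean_F j κ P u
    exact ⟨⟨⟨v.D, v.leibniz⟩, v.e, fun i hi => v.D_x i⟩, h1, h2, fun l _ =>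
      ⟨fun hp => h3 l hp, fun hp hd => h4 l hp hd⟩⟩
  obtain ⟨s, s', hz, hs, hsm, hw, hs', hsm'⟩ := hzw
  have hGV : ∀ {G : Type} {γ0 : G → K} {Γ : G → Fin d → ℤ}, Fn M γ0 Γ →
      Pool.Agent.K3h19.Witt.GV (hW.W r) γ0
        (IntermediateField.adjoin K (Set.range z ∪ Set.range w)) := fun hG =>
    Pool.Agent.K3h19.Witt.gv_pairs hW hG hR z w s s' hz hs hsm hw hs' hsm'
  obtain ⟨T, I, hT, hI, M', Γ', hF', hR', hD'⟩ : ∃ (T I : Type) (_ : Finite T) (_ : Fintype I)
      (M' : LM (⊥ : Subalgebra k K') ⊤ T I) (Γ' : PEmpty → I → ℤ),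
      Fn M' (fun b : PEmpty => algebraMap K K' (b.elim : K)) Γ' ∧ Frc M' ∧
        Pool.Agent.TH214.Dm M.A (algebraMap K K') M' := by
    rcases hy with hy | ⟨hFb, hy⟩
    · refine Pool.Agent.K3h19.Witt.gv_insep p _ (hGV hG) (F := F) (m := C.e) (b := C.b)
        (c := fun j u => (C.c j u : K)) (fun j u => (C.c j u).2) C.eq_F hln y
        (Or.inl fun l => ?_) hgen
      obtain ⟨y', hy', b, hb, hwb⟩ := hy l
      obtain ⟨lam, hlam⟩ := (Submodule.mem_span_range_iff_exists_fun k).1 hy'
      refine ⟨lam, b, hb, ?_⟩
      rw [hwb, ← hlam]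
      simp only [Algebra.smul_def]
    · choose δ hδ using fun u => hfn _ (hFb u)
      have hG2 : Fn M (Sum.elim (fun b : PEmpty => (b.elim : K)) F)
          (Sum.elim (fun b : PEmpty => (b.elim : Fin d → ℤ)) δ) := by
        rintro (b | u)
        · exact b.elim
        · exact hδ u
      have hF0 : ∀ u, F u ≠ 0 := by
        intro u
        obtain ⟨w', hw0, -, -, h1⟩ := hδ u 0
        rw [h1]
        exact mul_ne_zero hw0 (Finset.prod_ne_zero_iff.2 fun i _ => zpow_ne_zero _ (M.x0 0 i))
      obtain ⟨T, I, hT, hI, M', Γ', hF', hR', hD'⟩ :=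
        Pool.Agent.K3h19.Witt.gv_insep p _ (hGV hG2) (F := F) (m := C.e) (b := C.b)
        (c := fun j u => (C.c j u : K)) (fun j u => (C.c j u).2) C.eq_F hln y
        (Or.inr ⟨fun u => ⟨Sum.inr u, rfl⟩, hF0, hy⟩) hgen
      exact ⟨T, I, hT, hI, M', fun b => Γ' (Sum.inl b), fun b => b.elim, hR', hD'⟩
  obtain ⟨X', hX', g'', h1, h2, ⟨h3⟩⟩ := Pool.Agent.W418.Z.regular_of_LM M' (fun t x => by
    obtain ⟨a, ha, b, hb, hb0, h⟩ := hR' t x
    exact ⟨a, ha, b, hb, hb0, by rw [h, div_eq_mul_inv]⟩)
  obtain ⟨ε⟩ := ‹Nonempty (Y.functionField ≃+* K')›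
  exact ⟨X', hX', g'', h1, h2, ⟨h3.trans ε.symm⟩⟩

end Pool.Agent.Results.MP_4d1008_ag.WittCovers
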